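import Mathlib
import Pool.Agent.Lib.helper4.Ladder

set_option autoImplicit false

namespace Pool.Agent.Results.MP_41e59e_gt.NoSuitable

open Set Filter Topology
open Pool.Agent.Lib.helper4.TotOrd (Om exists_ub)
open Pool.Agent.Lib.helper4.Ladder

/-- `S` is a suitable set for the (multiplicative) topological group `G`: `S` is discrete,
`S ∪ {1}` is closed, and the subgroup generated by `S` is dense. -/
def Suitable {G : Type} [Group G] [TopologicalSpace G] (S : Set G) : Prop :=
  IsDiscrete S ∧ IsClosed (insert 1 S) ∧ Dense (Subgroup.closure S : Set G)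

theorem result : ∃ (G : Type) (_ : CommGroup G) (_ : TopologicalSpace G) (_ : LinearOrder G),
    IsTopologicalGroup G ∧ OrderTopology G ∧ T35Space G ∧ TotallyDisconnectedSpace G ∧
    ¬ TopologicalSpace.SeparableSpace G ∧ (∀ x : G, ¬ IsGδ ({x} : Set G)) ∧
    ¬ ∃ S : Set G, Suitable S := by
  let _ : TopologicalSpace G := Preorder.topology G
  have : OrderTopology G := ⟨rfl⟩
  have op : ∀ (x : G) (α : Om), IsOpen {y | ∀ ξ < α, ph y ξ = ph x ξ} := fun x α =>
    isOpen_iff_mem_nhds.2 fun y hy => mem_of_superset ((basis y).mem_of_mem (i := α) trivial)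
      fun z hz ξ h => (hz ξ h).trans (hy ξ h)
  have cl : ∀ (x : G) (α : Om), IsClosed {y | ∀ ξ < α, ph y ξ = ph x ξ} := fun x α =>
    isOpen_compl_iff.1 (isOpen_iff_mem_nhds.2 fun y hy =>
      mem_of_superset ((basis y).mem_of_mem (i := α) trivial)
        fun z hz hc => hy fun ξ h => (hz ξ h).symm.trans (hc ξ h))
  refine ⟨Multiplicative G, inferInstance, inferInstance, inferInstance, inferInstance,
    this, inferInstanceAs (T35Space G), ?_, ?_, ?_, ?_⟩
  · have : TotallySeparatedSpace G := by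
      refine totallySeparatedSpace_iff_exists_isClopen.2 fun x y hxy => ?_
      obtain ⟨ξ, hξ⟩ := Function.ne_iff.1 (ph_inj.ne hxy)
      obtain ⟨α, hα⟩ := exists_ub {ξ} (countable_singleton _)
      exact ⟨_, ⟨cl x α, op x α⟩, fun _ _ => rfl, fun h => hξ (h ξ (hα ξ rfl)).symm⟩
    exact inferInstanceAs (TotallyDisconnectedSpace G)
  · intro h
    have : TopologicalSpace.SeparableSpace G := h
    obtain ⟨D, h1, h2⟩ := TopologicalSpace.exists_countable_dense G
    have : ∀ x : G, ∃ β, ∀ ξ, β ≤ ξ → ph x ξ = 0 := fun x => bdd x.2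
    choose b hb using this
    obtain ⟨β, hβ⟩ := exists_ub _ (h1.image b)
    obtain ⟨α, hα⟩ := exists_ub {β} (countable_singleton _)
    obtain ⟨d, d1, d2⟩ := h2.exists_mem_open (op (e β) α) ⟨e β, fun _ _ => rfl⟩
    have := d2 β (hα β rfl)
    rw [hb d β (hβ _ ⟨d, d1, rfl⟩).le] at this
    have e1 : ph (e β) β = 1 := Pi.single_eq_same _ _
    omega
  · rintro x ⟨T, h1, h2, h3⟩
    have : ∀ t ∈ T, ∃ α : Om, {y : G | ∀ ξ < α, ph y ξ = ph x ξ} ⊆ t := fun t ht => by
      obtain ⟨α, -, h⟩ := (basis x).mem_iff.1 ((h1 t ht).mem_nhds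
        ((h3 ▸ rfl : x ∈ ⋂₀ T) t ht))
      exact ⟨α, h⟩
    choose! a ha using this
    obtain ⟨β, hβ⟩ := exists_ub _ (h2.image a)
    have : (x.toAdd + e β : G) ∈ ⋂₀ T := fun t ht => ha t ht fun ξ h => by
      show ph x ξ + (Pi.single β 1 : Om → ℤ) ξ = _
      rw [Pi.single_eq_of_ne (h.trans (hβ _ ⟨t, ht, rfl⟩)).ne, add_zero]
    rw [← h3] at this
    exact (lt_add_of_pos_right x.toAdd (e_pos β)).ne' this
  · rintro ⟨S, h1, h2, h3⟩
    refine core (K := G) ph ph_range basis 0 rfl S _ h1 h2 h3 fun d hd => ?_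
    induction hd using Subgroup.closure_induction with
    | mem x hx => exact AddSubgroup.subset_closure ⟨x, hx, rfl⟩
    | one => exact zero_mem _
    | mul x y _ _ hx hy => exact add_mem hx hy
    | inv x _ hx => exact neg_mem hx

end Pool.Agent.Results.MP_41e59e_gt.NoSuitable
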